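import Pool.Agent.Work.MP_7794fd_co.Defs

/-! MP_7794fd_co: degrees modulo two, handshake, T-joins. -/

set_option autoImplicit false

namespace Pool.Agent.Work.MP_7794fd_co

open Finset

set_option linter.unusedSectionVars false

variable {V E : Type} [Fintype V] [DecidableEq V] [Fintype E] [DecidableEq E] (G : MG V E)

lemma deg_cast (X : Finset E) (v : V) :
    (deg G X v : ZMod 2) = ∑ e, if (e ∈ X ∧ v ∈ G.ends e) then (1 : ZMod 2) else 0 := by
  have h1 : X.filter (fun e => v ∈ G.ends e) = univ.filter (fun e => e ∈ X ∧ v ∈ G.ends e) := by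
    ext e; simp
  rw [Finset.sum_boole]
  unfold deg
  rw [h1]

lemma deg_symmDiff (X Y : Finset E) (v : V) :
    (deg G (symmDiff X Y) v : ZMod 2) = deg G X v + deg G Y v := by
  rw [deg_cast, deg_cast, deg_cast, ← Finset.sum_add_distrib]
  refine Finset.sum_congr rfl (fun e _ => ?_)
  have h2 : (1 : ZMod 2) + 1 = 0 := by decide
  by_cases h : v ∈ G.ends e <;> by_cases hx : e ∈ X <;> by_cases hy : e ∈ Y <;>
    simp [Finset.mem_symmDiff, h, hx, hy, h2]

lemma ends_ne {e : E} {u v : V} (h : G.ends e = s(u, v)) : u ≠ v := by
  intro huv
  have := G.loopless e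
  rw [h, huv] at this
  exact this (by simp)

lemma deg_single {e : E} {u w : V} (h : G.ends e = s(u, w)) (v : V) :
    (deg G {e} v : ZMod 2) = (if v = u then 1 else 0) + (if v = w then 1 else 0) := by
  have huw := ends_ne G h
  unfold deg
  by_cases h1 : v = u
  · subst h1
    have h2 : v ≠ w := huw
    rw [Finset.filter_singleton, if_pos (by rw [h]; simp)]
    simp [h2]
  · by_cases h2 : v = w
    · subst h2
      rw [Finset.filter_singleton, if_pos (by rw [h]; simp)]
      simp [h1]
    · rw [Finset.filter_singleton, if_neg (by rw [h]; simp [h1, h2])]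
      simp [h1, h2]

lemma reach_symm (X : Finset E) {u v : V} (h : Reach G Set.univ X u v) :
    Reach G Set.univ X v u := by
  induction h with
  | refl => exact Relation.ReflTransGen.refl
  | tail _ hs ih =>
    obtain ⟨_, _, e, he, hab⟩ := hs
    exact (Relation.ReflTransGen.single ⟨trivial, trivial, e, he, by
      rw [hab, Sym2.eq_swap]⟩).trans ih

lemma linked_symm (W : Set V) (X : Finset E) {e f : E} (h : Linked G W X e f) :
    Linked G W X f e := by
  induction h with
  | refl => exact Relation.ReflTransGen.refl
  | tail _ hs ih =>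
    obtain ⟨ha, hb, v, hv, h1, h2⟩ := hs
    exact (Relation.ReflTransGen.single ⟨hb, ha, v, hv, h2, h1⟩).trans ih

/-- edge set with odd degrees exactly at the two ends of a walk -/
lemma tjoin_walk (X : Finset E) {u w : V} (h : Reach G Set.univ X u w) :
    ∃ J ⊆ X, ∀ v, (deg G J v : ZMod 2) = (if v = u then 1 else 0) + (if v = w then 1 else 0) := by
  induction h with
  | refl =>
    refine ⟨∅, by simp, fun v => ?_⟩
    have h2 : (1 : ZMod 2) + 1 = 0 := by decide
    by_cases h1 : v = u <;> simp [deg, h1, h2]
  | @tail b c _ hs ih =>
    obtain ⟨J, hJ, hd⟩ := ih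
    obtain ⟨_, _, e, he, hbc⟩ := hs
    refine ⟨symmDiff J {e}, ?_, fun v => ?_⟩
    · intro f hf
      rw [Finset.mem_symmDiff] at hf
      rcases hf with hf | hf
      · exact hJ hf.1
      · rw [Finset.mem_singleton.1 hf.1]; exact he
    · rw [deg_symmDiff, hd, deg_single G hbc]
      have h2 : ∀ a : ZMod 2, a + a = 0 := by decide
      have h3 := h2 (if v = b then 1 else 0)
      linear_combination h3

open Classical in
/-- T-joins -/
lemma tjoin (X : Finset E) (T : Finset V)
    (hT : ∀ v, Even (T.filter (fun t => Reach G Set.univ X v t)).card) :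
    ∃ J ⊆ X, ∀ v, (deg G J v : ZMod 2) = if v ∈ T then 1 else 0 := by
  induction T using Finset.strongInduction with
  | H T ih =>
    rcases T.eq_empty_or_nonempty with h0 | ⟨t, ht⟩
    · subst h0
      exact ⟨∅, by simp, fun v => by simp [deg]⟩
    · have ht1 : t ∈ T.filter (fun s => Reach G Set.univ X t s) :=
        Finset.mem_filter.2 ⟨ht, Relation.ReflTransGen.refl⟩
      have hc := hT t
      have hpos : 0 < (T.filter (fun s => Reach G Set.univ X t s)).card :=
        Finset.card_pos.2 ⟨t, ht1⟩
      have hone : 1 < (T.filter (fun s => Reach G Set.univ X t s)).card := by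
        rcases hc with ⟨k, hk⟩; omega
      obtain ⟨t', ht', hne⟩ := Finset.exists_mem_ne hone t
      rw [Finset.mem_filter] at ht'
      obtain ⟨htT', hr⟩ := ht'
      set T' := (T.erase t).erase t' with hT'
      have hsub : T' ⊂ T := by
        refine Finset.ssubset_iff_subset_ne.2 ⟨?_, ?_⟩
        · exact (Finset.erase_subset _ _).trans (Finset.erase_subset _ _)
        · intro h
          have : t ∈ T' := by rw [h]; exact ht
          simp [hT'] at this
      obtain ⟨J₀, hJ₀, hd₀⟩ := tjoin_walk G X hr
      obtain ⟨J', hJ', hd'⟩ := ih T' hsub (by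
        intro v
        by_cases hv : Reach G Set.univ X v t
        · have hv' : Reach G Set.univ X v t' := hv.trans hr
          have h1 : T.filter (fun s => Reach G Set.univ X v s) =
              insert t (insert t' (T'.filter (fun s => Reach G Set.univ X v s))) := by
            ext s
            simp only [Finset.mem_filter, Finset.mem_insert, hT', Finset.mem_erase]
            constructor
            · rintro ⟨h1, h2⟩
              by_cases hs : s = t
              · exact Or.inl hs
              · by_cases hs' : s = t'
                · exact Or.inr (Or.inl hs')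
                · exact Or.inr (Or.inr ⟨⟨hs', hs, h1⟩, h2⟩)
            · rintro (h1 | h1 | ⟨⟨_, _, h1⟩, h2⟩)
              · subst h1; exact ⟨ht, hv⟩
              · subst h1; exact ⟨htT', hv'⟩
              · exact ⟨h1, h2⟩
          have h2 := hT v
          rw [h1, Finset.card_insert_of_notMem, Finset.card_insert_of_notMem] at h2
          · rcases h2 with ⟨k, hk⟩
            exact ⟨k - 1, by omega⟩
          · simp [hT']
          · simp [hT', hne.symm]
        · have hv' : ¬ Reach G Set.univ X v t' := fun h => hv (h.trans (reach_symm G X hr))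
          have h1 : T'.filter (fun s => Reach G Set.univ X v s) =
              T.filter (fun s => Reach G Set.univ X v s) := by
            ext s
            simp only [Finset.mem_filter, hT', Finset.mem_erase]
            constructor
            · rintro ⟨⟨_, _, h1⟩, h2⟩; exact ⟨h1, h2⟩
            · rintro ⟨h1, h2⟩
              refine ⟨⟨?_, ?_, h1⟩, h2⟩
              · rintro rfl; exact hv' h2
              · rintro rfl; exact hv h2
          rw [h1]; exact hT v)
      refine ⟨symmDiff J₀ J', ?_, fun v => ?_⟩
      · intro f hf
        rw [Finset.mem_symmDiff] at hf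
        rcases hf with hf | hf
        · exact hJ₀ hf.1
        · exact hJ' hf.1
      · rw [deg_symmDiff, hd₀, hd']
        by_cases h1 : v = t
        · subst h1
          simp [hT', ht, hne.symm]
        · by_cases h2 : v = t'
          · subst h2
            simp [hT', htT', h1]
          · simp [hT', h1, h2]

/-- handshake lemma for a set of vertices closed under the edges of `X` -/
lemma handshake (X : Finset E) (K : Finset V)
    (hK : ∀ e ∈ X, ∀ u v, G.ends e = s(u, v) → (u ∈ K ↔ v ∈ K)) :
    ∑ u ∈ K, (deg G X u : ZMod 2) = 0 := by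
  simp only [deg_cast]
  rw [Finset.sum_comm]
  refine Finset.sum_eq_zero (fun e _ => ?_)
  by_cases he : e ∈ X
  · obtain ⟨a, b, hab⟩ : ∃ a b, G.ends e = s(a, b) := by
      induction h : G.ends e using Sym2.ind with
      | _ a b => exact ⟨a, b, rfl⟩
    have hne := ends_ne G hab
    have h1 : ∀ u ∈ K, (if (e ∈ X ∧ u ∈ G.ends e) then (1 : ZMod 2) else 0) =
        (if u = a then 1 else 0) + (if u = b then 1 else 0) := by
      intro u _
      rw [hab]
      by_cases hua : u = a
      · subst hua; simp [he, hne]
      · by_cases hub : u = b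
        · subst hub; simp [he, hua]
        · simp [hua, hub]
    rw [Finset.sum_congr rfl h1, Finset.sum_add_distrib, Finset.sum_ite_eq', Finset.sum_ite_eq']
    have h2 : (1 : ZMod 2) + 1 = 0 := by decide
    by_cases ha : a ∈ K
    · have hb := (hK e he a b hab).1 ha
      simp [ha, hb, h2]
    · have hb : b ∉ K := fun hb => ha ((hK e he a b hab).2 hb)
      simp [ha, hb]
  · simp [he]

end Pool.Agent.Work.MP_7794fd_co
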