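import Pool.Agent.Work.MP_7794fd_co.Base

/-! MP_7794fd_co: counting three-colourings (Smith's theorem with vertices of degree two). -/

set_option autoImplicit false

namespace Pool.Agent.Work.MP_7794fd_co

open Finset

set_option linter.unusedSectionVars false

variable {V E : Type} [Fintype V] [DecidableEq V] [Fintype E] [DecidableEq E] (G : MG V E)

/-- colourings of `H` with the colours `1,2,3` (and `0` outside `H`): all different at the
vertices of `T`, all equal at the other vertices, colour `1` on `e0` -/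
structure Col (H : Finset E) (T : Finset V) (e0 : E) (φ : E → Fin 4) : Prop where
  out : ∀ e, φ e = 0 ↔ e ∉ H
  rain : ∀ v ∈ T, ∀ e ∈ H, ∀ f ∈ H, v ∈ G.ends e → v ∈ G.ends f → e ≠ f → φ e ≠ φ f
  same : ∀ v, v ∉ T → ∀ e ∈ H, ∀ f ∈ H, v ∈ G.ends e → v ∈ G.ends f → φ e = φ f
  base : φ e0 = 1

/-- edges of colour `1` or `2` -/
def DD (φ : E → Fin 4) : Finset E := univ.filter (fun e => φ e = 1 ∨ φ e = 2)

lemma mem_DD (φ : E → Fin 4) (e : E) : e ∈ DD φ ↔ (φ e = 1 ∨ φ e = 2) := by simp [DD]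

/-- all edges of colours `1`, `2` are linked to `e0` -/
def Conn (e0 : E) (φ : E → Fin 4) : Prop := ∀ f ∈ DD φ, Linked G Set.univ (DD φ) e0 f

open Classical in
lemma col_even (H : Finset E) (T : Finset V) (e0 : E) (t : V) (ht : t ∈ T) (a b : E)
    (ha : a ∈ H) (hb : b ∈ H) (hta : t ∈ G.ends a) (htb : t ∈ G.ends b) (hab : a ≠ b) :
    ∑ _φ ∈ (univ : Finset (E → Fin 4)).filter (Col G H T e0), (1 : ZMod 2) = 0 := by
  have s0 : ∀ x : Fin 4, Equiv.swap (2 : Fin 4) 3 x = 0 ↔ x = 0 := by decide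
  have s1 : ∀ x : Fin 4, Equiv.swap (2 : Fin 4) 3 x = x → x = 0 ∨ x = 1 := by decide
  refine Finset.sum_involution (fun φ _ => fun e => Equiv.swap (2 : Fin 4) 3 (φ e)) ?_ ?_ ?_ ?_
  · intro φ _; decide
  · intro φ hφ _ heq
    have hc := (Finset.mem_filter.1 hφ).2
    have h1 := s1 _ (congrFun heq a)
    have h2 := s1 _ (congrFun heq b)
    have h3 : φ a ≠ 0 := fun h => (hc.out a).1 h ha
    have h4 : φ b ≠ 0 := fun h => (hc.out b).1 h hb
    exact hc.rain t ht a ha b hb hta htb hab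
      ((h1.resolve_left h3).trans (h2.resolve_left h4).symm)
  · intro φ hφ
    have hc := (Finset.mem_filter.1 hφ).2
    refine Finset.mem_filter.2 ⟨Finset.mem_univ _, ?_, ?_, ?_, ?_⟩
    · intro e; rw [s0]; exact hc.out e
    · intro v hv e he f hf h1 h2 hne h
      exact hc.rain v hv e he f hf h1 h2 hne ((Equiv.swap (2 : Fin 4) 3).injective h)
    · intro v hv e he f hf h1 h2
      show Equiv.swap (2 : Fin 4) 3 (φ e) = Equiv.swap (2 : Fin 4) 3 (φ f)
      rw [hc.same v hv e he f hf h1 h2]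
    · show Equiv.swap (2 : Fin 4) 3 (φ e0) = 1
      rw [hc.base]; decide
  · intro φ _
    funext e
    exact Equiv.swap_apply_self _ _ _

open Classical in
/-- exchange of the colours `1`, `2` on the edges not linked to `e0` -/
noncomputable def flipc (e0 : E) (φ : E → Fin 4) : E → Fin 4 := fun e =>
  if e ∈ DD φ ∧ ¬ Linked G Set.univ (DD φ) e0 e then Equiv.swap (1 : Fin 4) 2 (φ e) else φ e

lemma flipc_mem (e0 : E) (φ : E → Fin 4) (e : E) :
    (flipc G e0 φ e = 1 ∨ flipc G e0 φ e = 2) ↔ (φ e = 1 ∨ φ e = 2) := by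
  have s : ∀ x : Fin 4, (Equiv.swap (1 : Fin 4) 2 x = 1 ∨ Equiv.swap (1 : Fin 4) 2 x = 2) ↔
    (x = 1 ∨ x = 2) := by decide
  unfold flipc
  split_ifs
  · exact s _
  · exact Iff.rfl

lemma DD_flipc (e0 : E) (φ : E → Fin 4) : DD (flipc G e0 φ) = DD φ := by
  ext e
  rw [mem_DD, mem_DD, flipc_mem]

lemma flipc_flipc (e0 : E) (φ : E → Fin 4) : flipc G e0 (flipc G e0 φ) = φ := by
  funext e
  by_cases h : e ∈ DD φ ∧ ¬ Linked G Set.univ (DD φ) e0 e
  · have h1 : flipc G e0 φ e = Equiv.swap (1 : Fin 4) 2 (φ e) := if_pos h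
    have h2 : flipc G e0 (flipc G e0 φ) e = Equiv.swap (1 : Fin 4) 2 (flipc G e0 φ e) := by
      have h' : e ∈ DD (flipc G e0 φ) ∧ ¬ Linked G Set.univ (DD (flipc G e0 φ)) e0 e := by
        rw [DD_flipc]; exact h
      exact if_pos h'
    rw [h2, h1]
    exact Equiv.swap_apply_self _ _ _
  · have h1 : flipc G e0 φ e = φ e := if_neg h
    have h2 : flipc G e0 (flipc G e0 φ) e = flipc G e0 φ e := by
      have h' : ¬ (e ∈ DD (flipc G e0 φ) ∧ ¬ Linked G Set.univ (DD (flipc G e0 φ)) e0 e) := by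
        rw [DD_flipc]; exact h
      exact if_neg h'
    rw [h2, h1]

/-- edges of `DD φ` sharing a vertex are linked to `e0` simultaneously -/
lemma linked_share (e0 : E) (X : Finset E) {e f : E} (he : e ∈ X) (hf : f ∈ X) {v : V}
    (h1 : v ∈ G.ends e) (h2 : v ∈ G.ends f) :
    Linked G Set.univ X e0 e ↔ Linked G Set.univ X e0 f := by
  constructor
  · intro h
    exact h.tail ⟨he, hf, v, trivial, h1, h2⟩
  · intro h
    exact h.tail ⟨hf, he, v, trivial, h2, h1⟩

lemma col_flipc {H : Finset E} {T : Finset V} {e0 : E} {φ : E → Fin 4} (hc : Col G H T e0 φ) :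
    Col G H T e0 (flipc G e0 φ) := by
  have s0 : ∀ x : Fin 4, Equiv.swap (1 : Fin 4) 2 x = 0 ↔ x = 0 := by decide
  refine ⟨?_, ?_, ?_, ?_⟩
  · intro e
    unfold flipc
    split_ifs
    · rw [s0]; exact hc.out e
    · exact hc.out e
  · intro v hv e he f hf h1 h2 hne heq
    have hne' := hc.rain v hv e he f hf h1 h2 hne
    by_cases hde : e ∈ DD φ <;> by_cases hdf : f ∈ DD φ
    · have hl := linked_share G e0 (DD φ) hde hdf h1 h2
      by_cases hle : Linked G Set.univ (DD φ) e0 e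
      · have a1 : flipc G e0 φ e = φ e := if_neg (fun h => h.2 hle)
        have a2 : flipc G e0 φ f = φ f := if_neg (fun h => h.2 (hl.1 hle))
        rw [a1, a2] at heq
        exact hne' heq
      · have a1 : flipc G e0 φ e = Equiv.swap (1 : Fin 4) 2 (φ e) := if_pos ⟨hde, hle⟩
        have a2 : flipc G e0 φ f = Equiv.swap (1 : Fin 4) 2 (φ f) :=
          if_pos ⟨hdf, fun h => hle (hl.2 h)⟩
        rw [a1, a2] at heq
        exact hne' ((Equiv.swap (1 : Fin 4) 2).injective heq)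
    · have h3 := (flipc_mem G e0 φ e).2 ((mem_DD φ e).1 hde)
      have h4 : ¬ (flipc G e0 φ f = 1 ∨ flipc G e0 φ f = 2) := fun h =>
        hdf ((mem_DD φ f).2 ((flipc_mem G e0 φ f).1 h))
      rw [heq] at h3
      exact h4 h3
    · have h3 := (flipc_mem G e0 φ f).2 ((mem_DD φ f).1 hdf)
      have h4 : ¬ (flipc G e0 φ e = 1 ∨ flipc G e0 φ e = 2) := fun h =>
        hde ((mem_DD φ e).2 ((flipc_mem G e0 φ e).1 h))
      rw [heq] at h4
      exact h4 h3
    · have a1 : flipc G e0 φ e = φ e := if_neg (fun h => hde h.1)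
      have a2 : flipc G e0 φ f = φ f := if_neg (fun h => hdf h.1)
      rw [a1, a2] at heq
      exact hne' heq
  · intro v hv e he f hf h1 h2
    have heq := hc.same v hv e he f hf h1 h2
    have hd : e ∈ DD φ ↔ f ∈ DD φ := by rw [mem_DD, mem_DD, heq]
    by_cases hde : e ∈ DD φ
    · have hdf := hd.1 hde
      have hl := linked_share G e0 (DD φ) hde hdf h1 h2
      by_cases hle : Linked G Set.univ (DD φ) e0 e
      · have a1 : flipc G e0 φ e = φ e := if_neg (fun h => h.2 hle)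
        have a2 : flipc G e0 φ f = φ f := if_neg (fun h => h.2 (hl.1 hle))
        rw [a1, a2, heq]
      · have a1 : flipc G e0 φ e = Equiv.swap (1 : Fin 4) 2 (φ e) := if_pos ⟨hde, hle⟩
        have a2 : flipc G e0 φ f = Equiv.swap (1 : Fin 4) 2 (φ f) :=
          if_pos ⟨hdf, fun h => hle (hl.2 h)⟩
        rw [a1, a2, heq]
    · have a1 : flipc G e0 φ e = φ e := if_neg (fun h => hde h.1)
      have a2 : flipc G e0 φ f = φ f := if_neg (fun h => hde (hd.2 h.1))
      rw [a1, a2, heq]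
  · have a1 : flipc G e0 φ e0 = φ e0 := if_neg (fun h => h.2 Relation.ReflTransGen.refl)
    rw [a1]; exact hc.base

open Classical in
lemma bad_even (H : Finset E) (T : Finset V) (e0 : E) :
    ∑ _φ ∈ (univ : Finset (E → Fin 4)).filter (fun φ => Col G H T e0 φ ∧ ¬ Conn G e0 φ),
      (1 : ZMod 2) = 0 := by
  have s1 : ∀ x : Fin 4, (x = 1 ∨ x = 2) → Equiv.swap (1 : Fin 4) 2 x ≠ x := by decide
  refine Finset.sum_involution (fun φ _ => flipc G e0 φ) ?_ ?_ ?_ ?_
  · intro φ _; decide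
  · intro φ hφ _ heq
    have hc := (Finset.mem_filter.1 hφ).2.2
    unfold Conn at hc
    push Not at hc
    obtain ⟨f, hf, hl⟩ := hc
    have a1 : flipc G e0 φ f = Equiv.swap (1 : Fin 4) 2 (φ f) := if_pos ⟨hf, hl⟩
    have h2 := congrFun heq f
    have h3 : Equiv.swap (1 : Fin 4) 2 (φ f) = φ f := a1.symm.trans h2
    exact s1 _ ((mem_DD φ f).1 hf) h3
  · intro φ hφ
    obtain ⟨hc, hn⟩ := (Finset.mem_filter.1 hφ).2
    refine Finset.mem_filter.2 ⟨Finset.mem_univ _, col_flipc G hc, ?_⟩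
    unfold Conn
    rw [DD_flipc]
    exact hn
  · intro φ _
    exact flipc_flipc G e0 φ

/-- Smith's theorem: a second connected colouring. -/
theorem second_col (H : Finset E) (T : Finset V) (e0 : E) (t : V) (ht : t ∈ T) (a b : E)
    (ha : a ∈ H) (hb : b ∈ H) (hta : t ∈ G.ends a) (htb : t ∈ G.ends b) (hab : a ≠ b)
    (φ : E → Fin 4) (h1 : Col G H T e0 φ) (h2 : Conn G e0 φ) :
    ∃ ψ, ψ ≠ φ ∧ Col G H T e0 ψ ∧ Conn G e0 ψ := by
  classical
  have e1 := col_even G H T e0 t ht a b ha hb hta htb hab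
  have e2 := bad_even G H T e0
  have e3 : ∑ φ ∈ (univ : Finset (E → Fin 4)).filter (Col G H T e0), (1 : ZMod 2) =
      ∑ φ ∈ (univ : Finset (E → Fin 4)).filter (fun φ => Col G H T e0 φ ∧ Conn G e0 φ),
        (1 : ZMod 2) +
      ∑ φ ∈ (univ : Finset (E → Fin 4)).filter (fun φ => Col G H T e0 φ ∧ ¬ Conn G e0 φ),
        (1 : ZMod 2) := by
    rw [← Finset.sum_filter_add_sum_filter_not _ (fun φ => Conn G e0 φ), Finset.filter_filter,
      Finset.filter_filter]
  rw [e1, e2, add_zero] at e3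
  rw [Finset.sum_const, nsmul_eq_mul, mul_one] at e3
  have hev : Even ((univ : Finset (E → Fin 4)).filter
      (fun φ => Col G H T e0 φ ∧ Conn G e0 φ)).card := by
    rw [← ZMod.natCast_eq_zero_iff_even]
    exact e3.symm
  have hmem : φ ∈ (univ : Finset (E → Fin 4)).filter (fun φ => Col G H T e0 φ ∧ Conn G e0 φ) :=
    Finset.mem_filter.2 ⟨Finset.mem_univ _, h1, h2⟩
  have hpos := Finset.card_pos.2 ⟨φ, hmem⟩
  have hone : 1 < ((univ : Finset (E → Fin 4)).filter
      (fun φ => Col G H T e0 φ ∧ Conn G e0 φ)).card := by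
    rcases hev with ⟨k, hk⟩; omega
  obtain ⟨ψ, hψ, hne⟩ := Finset.exists_mem_ne hone φ
  exact ⟨ψ, hne, (Finset.mem_filter.1 hψ).2.1, (Finset.mem_filter.1 hψ).2.2⟩

end Pool.Agent.Work.MP_7794fd_co
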