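import Mathlib

/-! MP_7794fd_co: circuits, extensions and semi-extensions in cubic multigraphs: definitions. -/

set_option autoImplicit false

namespace Pool.Agent.Work.MP_7794fd_co

/-- A multigraph without loops: every edge has two different ends (parallel edges allowed). -/
structure MG (V E : Type) where
  ends : E → Sym2 V
  loopless : ∀ e, ¬ (ends e).IsDiag

variable {V E : Type} [Fintype V] [DecidableEq V] [Fintype E] [DecidableEq E] (G : MG V E)

/-- the number of edges of `X` at the vertex `v` -/
def deg (X : Finset E) (v : V) : ℕ := (X.filter (fun e => v ∈ G.ends e)).card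

/-- every vertex has degree three -/
def Cubic : Prop := ∀ v, deg G Finset.univ v = 3

/-- the vertices of the edge set `X` -/
def verts (X : Finset E) : Set V := {v | ∃ e ∈ X, v ∈ G.ends e}

/-- the edges `e`, `f` are joined by a sequence of edges of `X` such that consecutive edges share
a vertex belonging to `W` -/
def Linked (W : Set V) (X : Finset E) : E → E → Prop :=
  Relation.ReflTransGen (fun e f => e ∈ X ∧ f ∈ X ∧ ∃ v ∈ W, v ∈ G.ends e ∧ v ∈ G.ends f)

/-- the vertices `u`, `v` are joined by a walk with edges in `X` and vertices in `W` -/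
def Reach (W : Set V) (X : Finset E) : V → V → Prop :=
  Relation.ReflTransGen (fun u v => u ∈ W ∧ v ∈ W ∧ ∃ e ∈ X, G.ends e = s(u, v))

/-- a circuit (connected 2-regular subgraph), given by its edge set -/
structure IsCircuit (X : Finset E) : Prop where
  nonempty : X.Nonempty
  deg : ∀ v, deg G X v = 0 ∨ deg G X v = 2
  conn : ∀ e ∈ X, ∀ f ∈ X, Linked G Set.univ X e f

/-- the set `A` of vertices lies in `V(D)` or in `V(J)` for one component `J` of `C △ D` -/
def Placed (C D : Finset E) (A : Set V) : Prop :=
  A ⊆ verts G D ∨ ∃ f ∈ symmDiff C D, ∀ x ∈ A, ∃ g, Linked G Set.univ (symmDiff C D) f g ∧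
    x ∈ G.ends g

/-- `D` is a semi-extension of `C`: both are circuits, they are different, and the attachments of
every Tutte bridge of `C ∪ D` (a chord, or a component of `G - V(C ∪ D)` with its edges to
`C ∪ D`) are placed. -/
structure IsSemiExt (C D : Finset E) : Prop where
  left : IsCircuit G C
  right : IsCircuit G D
  ne : C ≠ D
  chord : ∀ e, e ∉ C ∪ D → (∀ x ∈ G.ends e, x ∈ verts G (C ∪ D)) →
    Placed G C D {x | x ∈ G.ends e}
  bridge : ∀ u, u ∉ verts G (C ∪ D) → Placed G C D
    {x | x ∈ verts G (C ∪ D) ∧ ∃ q, Reach G (verts G (C ∪ D))ᶜ Finset.univ u q ∧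
      ∃ e, G.ends e = s(q, x)}

/-- `S` is a set of consecutive vertices of `C`, not all: any two edges of `C` with ends in `S`
are joined along `C` through vertices of `S`. -/
structure IsArc (C : Finset E) (S : Set V) : Prop where
  sub : S ⊆ verts G C
  ne : S ≠ verts G C
  cons : ∀ e ∈ C, ∀ f ∈ C, (∃ v ∈ S, v ∈ G.ends e) → (∃ v ∈ S, v ∈ G.ends f) →
    Linked G S C e f

end Pool.Agent.Work.MP_7794fd_co
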