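import Pool.Agent.Work.MP_7794fd_co.Color

/-! MP_7794fd_co: extensions of circuits under a parity condition. -/

set_option autoImplicit false

namespace Pool.Agent.Work.MP_7794fd_co

open Finset

set_option linter.unusedSectionVars false

variable {V E : Type} [Fintype V] [DecidableEq V] [Fintype E] [DecidableEq E] (G : MG V E)

lemma mem_verts_iff (X : Finset E) (v : V) : v ∈ verts G X ↔ deg G X v ≠ 0 := by
  unfold verts deg
  rw [Set.mem_ofPred_eq, ← Nat.pos_iff_ne_zero, Finset.card_pos]
  constructor
  · rintro ⟨e, he, hv⟩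
    exact ⟨e, Finset.mem_filter.2 ⟨he, hv⟩⟩
  · rintro ⟨e, he⟩
    exact ⟨e, (Finset.mem_filter.1 he).1, (Finset.mem_filter.1 he).2⟩

lemma deg_mono {X Y : Finset E} (h : X ⊆ Y) (v : V) : deg G X v ≤ deg G Y v :=
  Finset.card_le_card (Finset.filter_subset_filter _ h)

lemma deg_compl (C : Finset E) (v : V) : deg G C v + deg G Cᶜ v = deg G univ v := by
  unfold deg
  rw [← Finset.card_union_of_disjoint]
  · congr 1
    ext e
    simp only [Finset.mem_union, Finset.mem_filter, Finset.mem_compl, Finset.mem_univ, true_and]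
    tauto
  · rw [Finset.disjoint_left]
    intro e h1 h2
    exact (Finset.mem_compl.1 (Finset.mem_filter.1 h2).1) (Finset.mem_filter.1 h1).1

lemma reach_of_linked {C : Finset E} {e f : E} (he : e ∈ C) (h : Linked G Set.univ C e f)
    {v : V} (hv : v ∈ G.ends e) : ∀ w ∈ G.ends f, Reach G Set.univ C v w := by
  have key : ∀ g ∈ C, ∀ x ∈ G.ends g, ∀ y ∈ G.ends g, Reach G Set.univ C x y := by
    intro g hg x hx y hy
    by_cases hxy : x = y
    · subst hxy; exact Relation.ReflTransGen.refl
    · have : G.ends g = s(x, y) := (Sym2.mem_and_mem_iff hxy).1 ⟨hx, hy⟩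
      exact Relation.ReflTransGen.single ⟨trivial, trivial, g, hg, this⟩
  induction h with
  | refl => exact fun w hw => key e he v hv w hw
  | tail _ hs ih =>
    obtain ⟨hb, hc, x, _, hx1, hx2⟩ := hs
    intro w hw
    exact (ih x hx1).trans (key _ hc x hx2 w hw)

theorem exists_ext (hcub : Cubic G) (C : Finset E) (hC : IsCircuit G C) (S : Set V)
    (hS : IsArc G C S)
    (hpar : ∀ v, Even {u | Reach G Set.univ Cᶜ v u ∧ (u ∉ verts G C ∨ u ∈ S)}.ncard) :
    ∃ D, IsCircuit G D ∧ D ≠ C ∧ verts G C ⊆ verts G D ∧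
      ∀ e ∈ C, (∃ v ∈ S, v ∈ G.ends e) → e ∈ D := by
  classical
  set T : Finset V := univ.filter (fun v => v ∈ verts G C ∧ v ∉ S) with hT
  have memT : ∀ v, v ∈ T ↔ (v ∈ verts G C ∧ v ∉ S) := fun v => by simp [hT]
  have degC : ∀ v, v ∈ verts G C → deg G C v = 2 := fun v hv =>
    (hC.deg v).resolve_left ((mem_verts_iff G C v).1 hv)
  have degC0 : ∀ v, v ∉ verts G C → deg G C v = 0 := fun v hv => by
    by_contra h; exact hv ((mem_verts_iff G C v).2 h)
  have degX : ∀ v, deg G C v + deg G Cᶜ v = 3 := fun v => by rw [deg_compl, hcub v]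
  have two : ∀ n : ℕ, (n : ZMod 2) = 0 ↔ Even n := fun n => ZMod.natCast_eq_zero_iff_even
  -- parity of the components of `G - E(C)`
  have hparT : ∀ v, Even (T.filter (fun t => Reach G Set.univ Cᶜ v t)).card := by
    intro v
    set K : Finset V := univ.filter (fun u => Reach G Set.univ Cᶜ v u) with hK
    have hclosed : ∀ e ∈ Cᶜ, ∀ a b, G.ends e = s(a, b) → (a ∈ K ↔ b ∈ K) := by
      intro e he a b hab
      simp only [hK, Finset.mem_filter, Finset.mem_univ, true_and]
      constructor
      · intro h; exact h.tail ⟨trivial, trivial, e, he, hab⟩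
      · intro h; exact h.tail ⟨trivial, trivial, e, he, by rw [hab, Sym2.eq_swap]⟩
    have h1 := handshake G Cᶜ K hclosed
    have h2 : ∀ u ∈ K, (deg G Cᶜ u : ZMod 2) = 1 := by
      intro u _
      have h3 := degX u
      rcases hC.deg u with h | h
      · have : deg G Cᶜ u = 3 := by omega
        rw [this]; decide
      · have : deg G Cᶜ u = 1 := by omega
        rw [this]; decide
    rw [Finset.sum_congr rfl h2, Finset.sum_const, nsmul_eq_mul, mul_one, two] at h1
    have h4 : K.card = (T.filter (fun t => Reach G Set.univ Cᶜ v t)).card +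
        (K.filter (fun u => ¬ u ∈ T)).card := by
      rw [← Finset.card_filter_add_card_filter_not (s := K) (fun u => u ∈ T)]
      congr 2
      ext u
      simp only [hK, Finset.mem_filter, Finset.mem_univ, true_and]
      exact and_comm
    have h5 : {u | Reach G Set.univ Cᶜ v u ∧ (u ∉ verts G C ∨ u ∈ S)} =
        ((K.filter (fun u => ¬ u ∈ T) : Finset V) : Set V) := by
      ext u
      simp only [hK, Set.mem_ofPred_eq, Finset.coe_filter, Finset.mem_filter, Finset.mem_univ,
        true_and, memT]
      tauto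
    have h6 := hpar v
    rw [h5, Set.ncard_coe_finset] at h6
    rw [h4] at h1
    exact (Nat.even_add.1 h1).2 h6
  obtain ⟨F, hFC, hF⟩ := tjoin G Cᶜ T hparT
  have hdisj : ∀ e ∈ F, e ∉ C := fun e he => Finset.mem_compl.1 (hFC he)
  have degFT : ∀ v ∈ T, deg G F v = 1 := by
    intro v hv
    have h1 := hF v
    rw [if_pos hv] at h1
    have h2 := deg_mono G hFC v
    have h3 := degX v
    rw [degC v ((memT v).1 hv).1] at h3
    have h4 : deg G F v ≠ 0 := by
      intro h0; rw [h0] at h1; exact absurd h1 (by decide)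
    omega
  have degF0 : ∀ v, v ∉ T → Even (deg G F v) := by
    intro v hv
    have h1 := hF v
    rw [if_neg hv] at h1
    exact (two _).1 h1
  have degFS : ∀ v, v ∉ T → v ∈ verts G C → deg G F v = 0 := by
    intro v hv hvC
    have h1 := degF0 v hv
    have h2 := deg_mono G hFC v
    have h3 := degX v
    rw [degC v hvC] at h3
    rcases h1 with ⟨k, hk⟩
    omega
  have degFout : ∀ v, v ∉ T → deg G F v = 0 ∨ deg G F v = 2 := by
    intro v hv
    have h1 := degF0 v hv
    have h2 := deg_mono G hFC v
    have h3 := degX v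
    rcases h1 with ⟨k, hk⟩
    omega
  -- `T` is even
  have hTeven : Even T.card := by
    have h1 := handshake G F univ (fun e _ u v _ => by simp)
    have h2 : ∑ u, (deg G F u : ZMod 2) = ∑ u, if u ∈ T then (1 : ZMod 2) else 0 :=
      Finset.sum_congr rfl (fun u _ => hF u)
    rw [h2, Finset.sum_boole] at h1
    rw [two] at h1
    convert h1 using 2
    ext u; simp
  -- the alternating colouring of `C`
  obtain ⟨J, hJC, hJ⟩ := tjoin G C T (by
    intro v
    by_cases hv : v ∈ verts G C
    · have h1 : T.filter (fun t => Reach G Set.univ C v t) = T := by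
        rw [Finset.filter_eq_self]
        intro t ht
        obtain ⟨e, he, hve⟩ := hv
        obtain ⟨f, hf, htf⟩ := ((memT t).1 ht).1
        exact reach_of_linked G he (hC.conn e he f hf) hve t htf
      rw [h1]; exact hTeven
    · have h1 : T.filter (fun t => Reach G Set.univ C v t) = ∅ := by
        rw [Finset.filter_eq_empty_iff]
        intro t ht hr
        rcases Relation.ReflTransGen.cases_head hr with h | ⟨c, ⟨_, _, e, he, hvc⟩, _⟩
        · subst h; exact hv ((memT v).1 ht).1
        · exact hv ⟨e, he, by rw [hvc]; simp⟩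
      rw [h1]; simp)
  -- base edge
  obtain ⟨e0, he0, hbase⟩ : ∃ e0 ∈ C, ∀ f ∈ C, (∃ v ∈ S, v ∈ G.ends f) → Linked G S C e0 f := by
    by_cases hSe : ∃ v, v ∈ S
    · obtain ⟨v, hv⟩ := hSe
      obtain ⟨e, he, hve⟩ := hS.sub hv
      exact ⟨e, he, fun f hf hfv => hS.cons e he f hf ⟨v, hv, hve⟩ hfv⟩
    · obtain ⟨e, he⟩ := hC.nonempty
      exact ⟨e, he, fun f _ ⟨v, hv, _⟩ => absurd ⟨v, hv⟩ hSe⟩
  set H : Finset E := C ∪ F with hH
  set φ : E → Fin 4 := fun e => if e ∈ C then (if (e ∈ J ↔ e0 ∈ J) then 1 else 2) else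
    if e ∈ F then 3 else 0 with hφ
  have φC : ∀ e ∈ C, φ e = 1 ∨ φ e = 2 := by
    intro e he
    simp only [hφ, if_pos he]
    split_ifs
    · exact Or.inl rfl
    · exact Or.inr rfl
  have φF : ∀ e ∈ F, φ e = 3 := by
    intro e he
    simp only [hφ, if_neg (hdisj e he), if_pos he]
  have φ0 : ∀ e, e ∉ H → φ e = 0 := by
    intro e he
    have h1 : e ∉ C := fun h => he (Finset.mem_union_left _ h)
    have h2 : e ∉ F := fun h => he (Finset.mem_union_right _ h)
    simp only [hφ, if_neg h1, if_neg h2]
  -- two edges of `C` at a vertex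
  have pairC : ∀ v ∈ verts G C, ∀ e ∈ C, ∀ f ∈ C, v ∈ G.ends e → v ∈ G.ends f → e ≠ f →
      C.filter (fun g => v ∈ G.ends g) = {e, f} := by
    intro v hv e he f hf h1 h2 hne
    symm
    apply Finset.eq_of_subset_of_card_le
    · intro g hg
      rw [Finset.mem_insert, Finset.mem_singleton] at hg
      rcases hg with rfl | rfl
      · exact Finset.mem_filter.2 ⟨he, h1⟩
      · exact Finset.mem_filter.2 ⟨hf, h2⟩
    · rw [Finset.card_pair hne]
      exact (degC v hv).le
  have Jfilter : ∀ v ∈ verts G C, ∀ e ∈ C, ∀ f ∈ C, v ∈ G.ends e → v ∈ G.ends f → e ≠ f →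
      (Even (deg G J v) ↔ (e ∈ J ↔ f ∈ J)) := by
    intro v hv e he f hf h1 h2 hne
    have h3 := pairC v hv e he f hf h1 h2 hne
    have h4 : J.filter (fun g => v ∈ G.ends g) = ({e, f} : Finset E).filter (fun g => g ∈ J) := by
      rw [← h3]
      ext g
      simp only [Finset.mem_filter]
      constructor
      · rintro ⟨a, b⟩; exact ⟨⟨hJC a, b⟩, a⟩
      · rintro ⟨⟨_, b⟩, a⟩; exact ⟨a, b⟩
    unfold deg
    rw [h4, Finset.filter_insert, Finset.filter_singleton]
    by_cases a : e ∈ J <;> by_cases b : f ∈ J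
    · rw [if_pos a, if_pos b]
      have : (insert e ({f} : Finset E)).card = 2 := Finset.card_pair hne
      rw [this]; simp [a, b]
    · rw [if_pos a, if_neg b]; simp [a, b]
    · rw [if_neg a, if_pos b]; simp [a, b]
    · rw [if_neg a, if_neg b]; simp [a, b]
  have hcol : Col G H T e0 φ := by
    refine ⟨?_, ?_, ?_, ?_⟩
    · intro e
      constructor
      · intro h he
        rcases Finset.mem_union.1 he with h1 | h1
        · rcases φC e h1 with h2 | h2 <;> rw [h2] at h <;> exact absurd h (by decide)
        · rw [φF e h1] at h; exact absurd h (by decide)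
      · exact φ0 e
    · intro v hv e he f hf h1 h2 hne heq
      rcases Finset.mem_union.1 he with he | he <;> rcases Finset.mem_union.1 hf with hf | hf
      · have h3 := Jfilter v ((memT v).1 hv).1 e he f hf h1 h2 hne
        have h4 : ¬ Even (deg G J v) := by
          have := hJ v
          rw [if_pos hv] at this
          intro h
          rw [(two _).2 h] at this
          exact absurd this (by decide)
        have h5 : ¬ (e ∈ J ↔ f ∈ J) := fun h => h4 (h3.2 h)
        simp only [hφ, if_pos he, if_pos hf] at heq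
        by_cases a : (e ∈ J ↔ e0 ∈ J) <;> by_cases b : (f ∈ J ↔ e0 ∈ J)
        · exact h5 (a.trans b.symm)
        · rw [if_pos a, if_neg b] at heq; exact absurd heq (by decide)
        · rw [if_neg a, if_pos b] at heq; exact absurd heq (by decide)
        · exact h5 (by tauto)
      · rw [φF f hf] at heq
        rcases φC e he with h | h <;> rw [h] at heq <;> exact absurd heq (by decide)
      · rw [φF e he] at heq
        rcases φC f hf with h | h <;> rw [h] at heq <;> exact absurd heq (by decide)
      · have h3 := degFT v hv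
        unfold deg at h3
        rw [Finset.card_eq_one] at h3
        obtain ⟨g, hg⟩ := h3
        have a1 : e ∈ F.filter (fun g => v ∈ G.ends g) := Finset.mem_filter.2 ⟨he, h1⟩
        have a2 : f ∈ F.filter (fun g => v ∈ G.ends g) := Finset.mem_filter.2 ⟨hf, h2⟩
        rw [hg, Finset.mem_singleton] at a1 a2
        exact hne (a1.trans a2.symm)
    · intro v hv e he f hf h1 h2
      by_cases hvC : v ∈ verts G C
      · have h3 := degFS v hv hvC
        have noF : ∀ g ∈ F, v ∉ G.ends g := by
          intro g hg hvg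
          unfold deg at h3
          rw [Finset.card_eq_zero] at h3
          have : g ∈ F.filter (fun g => v ∈ G.ends g) := Finset.mem_filter.2 ⟨hg, hvg⟩
          rw [h3] at this
          exact absurd this (Finset.notMem_empty _)
        have heC : e ∈ C := (Finset.mem_union.1 he).resolve_right (fun h => noF e h h1)
        have hfC : f ∈ C := (Finset.mem_union.1 hf).resolve_right (fun h => noF f h h2)
        by_cases hne : e = f
        · rw [hne]
        · have h4 := Jfilter v hvC e heC f hfC h1 h2 hne
          have h5 : Even (deg G J v) := by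
            have := hJ v
            rw [if_neg hv] at this
            exact (two _).1 this
          have h6 := h4.1 h5
          simp only [hφ, if_pos heC, if_pos hfC]
          by_cases a : (e ∈ J ↔ e0 ∈ J)
          · rw [if_pos a, if_pos (h6.symm.trans a)]
          · rw [if_neg a, if_neg (fun h => a (h6.trans h))]
      · have heF : e ∈ F := (Finset.mem_union.1 he).resolve_left (fun h => hvC ⟨e, h, h1⟩)
        have hfF : f ∈ F := (Finset.mem_union.1 hf).resolve_left (fun h => hvC ⟨f, h, h2⟩)
        rw [φF e heF, φF f hfF]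
    · simp [hφ, he0]
  have hDDφ : DD φ = C := by
    ext e
    rw [mem_DD]
    constructor
    · intro h
      by_contra hne
      by_cases hF' : e ∈ F
      · rw [φF e hF'] at h; revert h; decide
      · rw [φ0 e (by rw [hH, Finset.mem_union]; tauto)] at h; revert h; decide
    · exact φC e
  have hconn : Conn G e0 φ := by
    intro f hf
    rw [hDDφ] at hf ⊢
    exact hC.conn e0 he0 f hf
  -- a vertex of `T` with two edges
  obtain ⟨t, htC, htS⟩ : ∃ t, t ∈ verts G C ∧ t ∉ S := by
    by_contra h
    push Not at h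
    exact hS.ne (Set.Subset.antisymm hS.sub h)
  have htT : t ∈ T := (memT t).2 ⟨htC, htS⟩
  obtain ⟨a, b, hab, habs⟩ := Finset.card_eq_two.1 (degC t htC)
  have haf : a ∈ C.filter (fun e => t ∈ G.ends e) := by rw [habs]; simp
  have hbf : b ∈ C.filter (fun e => t ∈ G.ends e) := by rw [habs]; simp
  obtain ⟨ψ, hne, hcψ, hcoψ⟩ := second_col G H T e0 t htT a b
    (Finset.mem_union_left _ (Finset.mem_filter.1 haf).1)
    (Finset.mem_union_left _ (Finset.mem_filter.1 hbf).1)
    (Finset.mem_filter.1 haf).2 (Finset.mem_filter.1 hbf).2 hab φ hcol hconn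
  have hDH : ∀ e ∈ DD ψ, e ∈ H := by
    intro e he
    by_contra h
    have h1 := (hcψ.out e).2 h
    rw [mem_DD, h1] at he
    revert he; decide
  -- degrees
  have degH : ∀ v, deg G H v = deg G C v + deg G F v := by
    intro v
    unfold deg
    rw [hH, Finset.filter_union, Finset.card_union_of_disjoint]
    rw [Finset.disjoint_left]
    intro e h1 h2
    exact hdisj e (Finset.mem_filter.1 h2).1 (Finset.mem_filter.1 h1).1
  have degD : ∀ v, v ∈ T → deg G (DD ψ) v = 2 := by
    intro v hv
    have h3 : (H.filter (fun e => v ∈ G.ends e)).card = 3 := by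
      have := degH v
      rw [degC v ((memT v).1 hv).1, degFT v hv] at this
      exact this
    have hinj : Set.InjOn ψ (H.filter (fun e => v ∈ G.ends e) : Finset E) := by
      intro e he f hf heq
      by_contra hne'
      have he' := Finset.mem_filter.1 (Finset.mem_coe.1 he)
      have hf' := Finset.mem_filter.1 (Finset.mem_coe.1 hf)
      exact hcψ.rain v hv e he'.1 f hf'.1 he'.2 hf'.2 hne' heq
    have himg : (H.filter (fun e => v ∈ G.ends e)).image ψ = {1, 2, 3} := by
      apply Finset.eq_of_subset_of_card_le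
      · intro c hc
        obtain ⟨e, he, rfl⟩ := Finset.mem_image.1 hc
        have h4 : ψ e ≠ 0 := fun h => (hcψ.out e).1 h (Finset.mem_filter.1 he).1
        have h5 : ∀ x : Fin 4, x ≠ 0 → x ∈ ({1, 2, 3} : Finset (Fin 4)) := by decide
        exact h5 _ h4
      · rw [Finset.card_image_of_injOn hinj, h3]
        decide
    have h6 : (DD ψ).filter (fun e => v ∈ G.ends e) =
        (H.filter (fun e => v ∈ G.ends e)).filter (fun e => ψ e = 1 ∨ ψ e = 2) := by
      ext e
      simp only [Finset.mem_filter, mem_DD]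
      constructor
      · rintro ⟨h1, h2⟩
        exact ⟨⟨hDH e ((mem_DD ψ e).2 h1), h2⟩, h1⟩
      · rintro ⟨⟨_, h2⟩, h1⟩
        exact ⟨h1, h2⟩
    have h7 : ((DD ψ).filter (fun e => v ∈ G.ends e)).image ψ = {1, 2} := by
      rw [h6]
      ext c
      simp only [Finset.mem_image, Finset.mem_filter, Finset.mem_insert, Finset.mem_singleton]
      constructor
      · rintro ⟨e, ⟨_, h1⟩, rfl⟩; exact h1
      · intro hc
        have h8 : c ∈ (H.filter (fun e => v ∈ G.ends e)).image ψ := by
          rw [himg]
          rcases hc with rfl | rfl <;> decide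
        obtain ⟨e, he, rfl⟩ := Finset.mem_image.1 h8
        exact ⟨e, ⟨Finset.mem_filter.1 he, hc⟩, rfl⟩
    have h8 : Set.InjOn ψ ((DD ψ).filter (fun e => v ∈ G.ends e) : Finset E) := by
      refine hinj.mono ?_
      intro e he
      have he' := Finset.mem_filter.1 (Finset.mem_coe.1 he)
      exact Finset.mem_coe.2 (Finset.mem_filter.2 ⟨hDH e he'.1, he'.2⟩)
    have h9 := Finset.card_image_of_injOn h8
    rw [h7] at h9
    unfold deg
    rw [← h9]
    decide
  have degD0 : ∀ v, v ∉ T → deg G (DD ψ) v = 0 ∨ deg G (DD ψ) v = 2 := by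
    intro v hv
    have h3 : deg G H v = 0 ∨ deg G H v = 2 := by
      rw [degH v]
      by_cases hvC : v ∈ verts G C
      · rw [degC v hvC, degFS v hv hvC]; right; rfl
      · rw [degC0 v hvC, zero_add]; exact degFout v hv
    by_cases hex : ∃ e ∈ DD ψ, v ∈ G.ends e
    · obtain ⟨e, he, hve⟩ := hex
      have h4 : (DD ψ).filter (fun e => v ∈ G.ends e) = H.filter (fun e => v ∈ G.ends e) := by
        ext f
        simp only [Finset.mem_filter]
        constructor
        · rintro ⟨h1, h2⟩; exact ⟨hDH f h1, h2⟩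
        · rintro ⟨h1, h2⟩
          refine ⟨?_, h2⟩
          rw [mem_DD, hcψ.same v hv f h1 e (hDH e he) h2 hve]
          exact (mem_DD ψ e).1 he
      have h5 : deg G (DD ψ) v = deg G H v := by
        unfold deg; rw [h4]
      rw [h5]; exact h3
    · left
      by_contra h
      exact hex ((mem_verts_iff G (DD ψ) v).2 h)
  have he0D : e0 ∈ DD ψ := (mem_DD ψ e0).2 (Or.inl hcψ.base)
  have hcirc : IsCircuit G (DD ψ) := by
    refine ⟨⟨e0, he0D⟩, ?_, ?_⟩
    · intro v
      by_cases hv : v ∈ T
      · exact Or.inr (degD v hv)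
      · exact degD0 v hv
    · intro e he f hf
      exact (linked_symm G _ _ (hcoψ e he)).trans (hcoψ f hf)
  have hSD : ∀ f, Linked G S C e0 f → ψ f = 1 := by
    intro f hf
    induction hf with
    | refl => exact hcψ.base
    | tail _ hs ih =>
      obtain ⟨h1, h2, v, hv, h3, h4⟩ := hs
      have hvT : v ∉ T := fun h => ((memT v).1 h).2 hv
      rw [← hcψ.same v hvT _ (Finset.mem_union_left _ h1) _ (Finset.mem_union_left _ h2) h3 h4]
      exact ih
  have hSe : ∀ e ∈ C, (∃ v ∈ S, v ∈ G.ends e) → e ∈ DD ψ := by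
    intro e he hv
    exact (mem_DD ψ e).2 (Or.inl (hSD e (hbase e he hv)))
  refine ⟨DD ψ, hcirc, ?_, ?_, hSe⟩
  · intro hEq
    apply hne
    have prop : ∀ e, Linked G Set.univ C e0 e → ψ e = φ e := by
      intro e he
      induction he with
      | refl => rw [hcψ.base, hcol.base]
      | @tail p q _ hs ih =>
        obtain ⟨hp, hq, v, _, h1, h2⟩ := hs
        by_cases hpq : p = q
        · rw [← hpq]; exact ih
        have hpH : p ∈ H := Finset.mem_union_left _ hp
        have hqH : q ∈ H := Finset.mem_union_left _ hq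
        by_cases hv : v ∈ T
        · have a1 := hcψ.rain v hv p hpH q hqH h1 h2 hpq
          have a2 := hcol.rain v hv p hpH q hqH h1 h2 hpq
          have b1 : ψ p = 1 ∨ ψ p = 2 := (mem_DD ψ p).1 (by rw [hEq]; exact hp)
          have b2 : ψ q = 1 ∨ ψ q = 2 := (mem_DD ψ q).1 (by rw [hEq]; exact hq)
          have c2 := φC q hq
          rw [ih] at a1 b1
          revert a1 a2 b1 b2 c2
          generalize φ p = x
          generalize φ q = y
          generalize ψ q = z
          revert x y z
          decide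
        · rw [← hcψ.same v hv p hpH q hqH h1 h2, ← hcol.same v hv p hpH q hqH h1 h2]
          exact ih
    funext e
    by_cases heC : e ∈ C
    · exact prop e (hC.conn e0 he0 e heC)
    · have h1 : ¬ (ψ e = 1 ∨ ψ e = 2) := fun h => heC (by rw [← hEq]; exact (mem_DD ψ e).2 h)
      by_cases heF : e ∈ F
      · rw [φF e heF]
        have h2 : ψ e ≠ 0 := fun h => (hcψ.out e).1 h (Finset.mem_union_right _ heF)
        revert h1 h2
        generalize ψ e = x
        revert x
        decide
      · have h3 : e ∉ H := by rw [hH, Finset.mem_union]; tauto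
        rw [φ0 e h3]
        exact (hcψ.out e).2 h3
  · intro v hv
    by_cases hvT : v ∈ T
    · rw [mem_verts_iff, degD v hvT]; decide
    · have hvS : v ∈ S := by
        by_contra h
        exact hvT ((memT v).2 ⟨hv, h⟩)
      obtain ⟨e, he, hve⟩ := hv
      exact ⟨e, hSe e he ⟨v, hvS, hve⟩, hve⟩

/-- every extension is a semi-extension -/
lemma semi_of_ext {C D : Finset E} (hC : IsCircuit G C) (hD : IsCircuit G D) (hne : D ≠ C)
    (h : verts G C ⊆ verts G D) : IsSemiExt G C D := by
  have hU : ∀ x, x ∈ verts G (C ∪ D) → x ∈ verts G D := by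
    rintro x ⟨e, he, hx⟩
    rcases Finset.mem_union.1 he with h1 | h1
    · exact h ⟨e, h1, hx⟩
    · exact ⟨e, h1, hx⟩
  refine ⟨hC, hD, hne.symm, ?_, ?_⟩
  · intro e _ hx
    exact Or.inl (fun x hx' => hU x (hx x hx'))
  · intro u _
    exact Or.inl (fun x hx' => hU x hx'.1)

end Pool.Agent.Work.MP_7794fd_co
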